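import Pool.Agent.Q145.RA.MultDeg2

set_option autoImplicit false
set_option maxHeartbeats 4000000

/-! # Degrees for almost all moduli in `(D/2, D]`, with few exceptions -/

namespace Pool.Agent.Q145.UM

open Finset Filter
open Pool.Agent.H442R2.KF (piAP piN Er bv)
open Pool.Agent.Q145.RA (cnt piAP_le cnt_le pnt badM mexp deg_good)

open scoped Classical

theorem card_bad (A : ℕ) (η ε ρ : ℝ) (hη : 0 < η) (hε : 0 < ε) (hρ : 0 < ρ) : ∃ D₀ : ℕ, ∀ D y : ℕ, D₀ ≤ D →
    (D : ℝ) ^ (2 + ε) ≤ y → ((badM η D y).card : ℝ) ≤ ρ * (D / Real.log D ^ A) := by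
  have hδ : 1 / (2 + ε) < 1 / 2 := one_div_lt_one_div_of_lt (by norm_num) (by linarith)
  obtain ⟨C, hC, h⟩ := bv (1 / (2 + ε)) hδ (A + 2)
  have hl : Tendsto (fun Y : ℕ => Real.log Y) atTop atTop :=
    Real.tendsto_log_atTop.comp tendsto_natCast_atTop_atTop
  obtain ⟨D₀, h0⟩ := eventually_atTop.1 (hl.eventually_ge_atTop (C / (η * ρ)))
  refine ⟨max D₀ 3, fun D y hD hy => ?_⟩
  have hD3 : 3 ≤ D := (le_max_right _ _).trans hD
  have hDr : (3 : ℝ) ≤ D := by exact_mod_cast hD3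
  have hDy : (D : ℝ) ≤ y := by
    refine le_trans ?_ hy
    calc (D : ℝ) = (D : ℝ) ^ (1 : ℝ) := (Real.rpow_one _).symm
      _ ≤ (D : ℝ) ^ (2 + ε) := Real.rpow_le_rpow_of_exponent_le (by linarith) (by linarith)
  have hy3 : 3 ≤ y := by
    have : (3 : ℝ) ≤ y := hDr.trans hDy
    exact_mod_cast this
  have hly : 0 < Real.log (y : ℝ) := Real.log_pos (by linarith)
  have hlD := h0 D ((le_max_left _ _).trans hD)
  have hlDy : Real.log (D : ℝ) ≤ Real.log y := Real.log_le_log (by linarith) hDy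
  set B := badM η D y with hB
  have hw : ∀ d ∈ B, ∃ a : ℕ, a.Coprime d ∧ η * (y / (d * Real.log y)) < |Er y d a| := fun d hd => (mem_filter.1 hd).2
  choose! w hw1 hw2 using hw
  have h1 := h y hy3 (fun d => if d ∈ B then w d else 1) (by
    intro d hd
    show Nat.Coprime (if d ∈ B then w d else 1) d
    split_ifs with h1
    · exact hw1 d h1
    · exact Nat.coprime_one_left d)
  have hsub : B ⊆ Icc 1 ⌊(y : ℝ) ^ (1 / (2 + ε))⌋₊ := by
    intro d hd
    have h2 := mem_Icc.1 (mem_filter.1 hd).1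
    refine mem_Icc.2 ⟨h2.1, Nat.le_floor ?_⟩
    have h3 : (d : ℝ) ≤ D := by exact_mod_cast h2.2
    refine h3.trans ?_
    have h4 : (D : ℝ) = ((D : ℝ) ^ (2 + ε)) ^ (1 / (2 + ε)) := by
      rw [← Real.rpow_mul (by linarith), mul_one_div, div_self (by linarith), Real.rpow_one]
    rw [h4]
    apply Real.rpow_le_rpow (by positivity) hy
    positivity
  have h2 : ∑ d ∈ B, |Er y d (w d)| ≤ C * (y / Real.log y ^ (A + 2)) := by
    refine le_trans ?_ h1
    calc ∑ d ∈ B, |Er y d (w d)| = ∑ d ∈ B, |Er y d (if d ∈ B then w d else 1)| := by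
          apply sum_congr rfl
          intro d hd
          rw [if_pos hd]
      _ ≤ _ := sum_le_sum_of_subset_of_nonneg hsub (fun _ _ _ => abs_nonneg _)
  have hy0 : (0 : ℝ) < y := by linarith
  have hD0 : (0 : ℝ) < D := by linarith
  have h3 : (B.card : ℝ) * (η * (y / (D * Real.log y))) ≤ ∑ d ∈ B, |Er y d (w d)| := by
    calc (B.card : ℝ) * (η * (y / (D * Real.log y))) = ∑ _d ∈ B, η * (y / (D * Real.log y)) := by
          rw [sum_const, nsmul_eq_mul]
      _ ≤ ∑ d ∈ B, |Er y d (w d)| := by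
          apply sum_le_sum
          intro d hd
          refine le_trans ?_ (hw2 d hd).le
          have h4 := mem_Icc.1 (mem_filter.1 hd).1
          have h5 : (1 : ℝ) ≤ d := by exact_mod_cast h4.1
          have h6 : (d : ℝ) ≤ D := by exact_mod_cast h4.2
          gcongr
  have h4 : (B.card : ℝ) * (η * (y / (D * Real.log y))) ≤ C * (y / Real.log y ^ (A + 2)) := h3.trans h2
  have hlD0 : 0 < Real.log (D : ℝ) := Real.log_pos (by linarith)
  have h5 : (B.card : ℝ) * (η * Real.log y ^ (A + 1)) ≤ C * D := by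
    have e1 : (B.card : ℝ) * (η * (y / (D * Real.log y))) * (D * Real.log y ^ (A + 2) / y) =
        B.card * (η * Real.log y ^ (A + 1)) := by
      field_simp
      ring
    have e2 : C * (y / Real.log y ^ (A + 2)) * (D * Real.log y ^ (A + 2) / y) = C * D := by
      field_simp
    rw [← e1, ← e2]
    exact mul_le_mul_of_nonneg_right h4 (by positivity)
  have h6 : C / (η * ρ) ≤ Real.log y := hlD.trans hlDy
  rw [div_le_iff₀ (by positivity)] at h6
  have h8 : Real.log (D : ℝ) ^ A ≤ Real.log y ^ A := pow_le_pow_left₀ hlD0.le hlDy A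
  have h7 : (B.card : ℝ) * Real.log D ^ A * (η * Real.log y) ≤ (ρ * D) * (η * Real.log y) := by
    calc (B.card : ℝ) * Real.log D ^ A * (η * Real.log y) ≤ (B.card : ℝ) * Real.log y ^ A * (η * Real.log y) := by
          gcongr
      _ = (B.card : ℝ) * (η * Real.log y ^ (A + 1)) := by ring
      _ ≤ C * D := h5
      _ ≤ (Real.log y * (η * ρ)) * D := mul_le_mul_of_nonneg_right h6 (by linarith)
      _ = _ := by ring
  have h9 : (B.card : ℝ) * Real.log D ^ A ≤ ρ * D := le_of_mul_le_mul_right h7 (by positivity)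
  rw [← mul_div_assoc, le_div_iff₀ (by positivity)]
  exact h9

/-- **Almost all moduli.** -/
theorem deg (A : ℕ) (η ε : ℝ) (hη : 0 < η) (hη1 : η ≤ 1) (hε : 0 < ε) : ∃ D₀ : ℕ, ∀ D Y : ℕ, D₀ ≤ D →
    (D : ℝ) ^ (1 + ε) ≤ Y → ∃ B ⊆ Icc 1 D, (B.card : ℝ) ≤ ε * (D / Real.log D ^ A) ∧
    ∀ d ∈ Icc 1 D, D < 2 * d → d ∉ B → ∀ a : ℕ, 1 ≤ a → a ≤ d →
    a.Coprime d → (1 - η) * mexp d Y ≤ cnt d Y a ∧ (cnt d Y a : ℝ) ≤ (1 + η) * mexp d Y := by
  set η₁ : ℝ := η / 20 with hη₁
  have hη₁0 : 0 < η₁ := by positivity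
  set J₀ : ℕ := ⌈1 / η₁⌉₊ with hJ₀
  have hJ₀r : 1 / η₁ ≤ J₀ := Nat.le_ceil _
  have hJ₀1 : (1 : ℝ) ≤ J₀ := by
    refine le_trans ?_ hJ₀r
    rw [le_div_iff₀ hη₁0]
    linarith
  set η₂ : ℝ := 1 / (8 * (J₀ + 1)) with hη₂
  have hη₂0 : 0 < η₂ := by positivity
  set J₁ : ℕ := ⌈1 / η₂⌉₊ with hJ₁
  have hJ₁r : 1 / η₂ ≤ J₁ := Nat.le_ceil _
  set ρ : ℝ := ε / (4 * J₁ + 4) with hρ
  have hρ0 : 0 < ρ := by positivity
  obtain ⟨D₁, h1⟩ := card_bad A η₁ (ε / 2) ρ hη₁0 (by positivity) hρ0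
  obtain ⟨y₀, h2⟩ := pnt η₁ hη₁0
  -- growth
  have hT : Tendsto (fun Y : ℕ => (Y : ℝ)) atTop atTop := tendsto_natCast_atTop_atTop
  have hl : Tendsto (fun Y : ℕ => Real.log Y) atTop atTop :=
    Real.tendsto_log_atTop.comp tendsto_natCast_atTop_atTop
  have a1 : ∀ᶠ D : ℕ in atTop, 1 ≤ η₂ * (D : ℝ) ^ (ε / 2) :=
    (((tendsto_rpow_atTop (show 0 < ε / 2 by positivity)).comp hT).const_mul_atTop hη₂0).eventually_ge_atTop 1
  have a2 : ∀ᶠ D : ℕ in atTop, 1 ≤ η₂ * (D : ℝ) := (hT.const_mul_atTop hη₂0).eventually_ge_atTop 1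
  have a3 : ∀ᶠ D : ℕ in atTop, 1 ≤ η₁ * (D : ℝ) := (hT.const_mul_atTop hη₁0).eventually_ge_atTop 1
  have a4 : ∀ᶠ Y : ℕ in atTop, 2 * Real.log Y ≤ η₁ * Y := by
    have h3 := Real.isLittleO_log_id_atTop.bound (show (0 : ℝ) < η₁ / 2 by positivity)
    filter_upwards [hT.eventually h3, hT.eventually_ge_atTop 1] with Y h4 h5
    rw [id, Real.norm_of_nonneg (Real.log_nonneg h5), Real.norm_of_nonneg (by linarith)] at h4
    linarith
  obtain ⟨D₂, h3⟩ := eventually_atTop.1 (a1.and (a2.and (a3.and (eventually_ge_atTop (max y₀ 3)))))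
  obtain ⟨D₃, h4⟩ := eventually_atTop.1 a4
  refine ⟨max D₁ (max D₂ D₃), fun D Y hD hDY => ?_⟩
  have hD₁ : D₁ ≤ D := (le_max_left _ _).trans hD
  have hD₂ : D₂ ≤ D := ((le_max_left _ _).trans (le_max_right _ _)).trans hD
  have hD₃ : D₃ ≤ D := ((le_max_right _ _).trans (le_max_right _ _)).trans hD
  obtain ⟨b1, b2, b3, b4⟩ := h3 D hD₂
  have hDy₀ : y₀ ≤ D := (le_max_left _ _).trans b4
  have hD3 : 3 ≤ D := (le_max_right _ _).trans b4
  have hDr : (3 : ℝ) ≤ D := by exact_mod_cast hD3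
  have hD0 : (0 : ℝ) < D := by linarith
  have hDYr : (D : ℝ) ≤ Y := by
    refine le_trans ?_ hDY
    calc (D : ℝ) = (D : ℝ) ^ (1 : ℝ) := (Real.rpow_one _).symm
      _ ≤ (D : ℝ) ^ (1 + ε) := Real.rpow_le_rpow_of_exponent_le (by linarith) (by linarith)
  have hDYn : D ≤ Y := by exact_mod_cast hDYr
  have b5 := h4 Y (hD₃.trans hDYn)
  set h : ℕ := ⌊η₂ * D⌋₊ + 1 with hh
  have hh1 : η₂ * D < h := by
    rw [hh]
    push_cast
    exact Nat.lt_floor_add_one _
  have hh2 : (h : ℝ) ≤ 2 * (η₂ * D) := by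
    rw [hh]
    push_cast
    have := Nat.floor_le (show 0 ≤ η₂ * (D : ℝ) by positivity)
    linarith
  have hh0 : 0 < h := by omega
  have hhr0 : (0 : ℝ) < h := by exact_mod_cast hh0
  set ym : ℕ → ℕ := fun j => j * h * Y with hym
  set yp : ℕ → ℕ := fun j => (j + 1) * h * (Y + 1) with hyp
  have hymD : ∀ j, J₀ ≤ j → (D : ℝ) ^ (2 + ε / 2) ≤ ym j := by
    intro j hj
    have hjr : (1 : ℝ) ≤ j := hJ₀1.trans (by exact_mod_cast hj)
    have e1 : (D : ℝ) ^ (2 + ε / 2) ≤ η₂ * D * (D : ℝ) ^ (1 + ε) := by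
      have e2 : (D : ℝ) * (D : ℝ) ^ (1 + ε) = (D : ℝ) ^ (2 + ε / 2) * (D : ℝ) ^ (ε / 2) := by
        rw [← Real.rpow_add hD0]
        nth_rewrite 1 [← Real.rpow_one (D : ℝ)]
        rw [← Real.rpow_add hD0]
        congr 1
        ring
      calc (D : ℝ) ^ (2 + ε / 2) = (D : ℝ) ^ (2 + ε / 2) * 1 := (mul_one _).symm
        _ ≤ (D : ℝ) ^ (2 + ε / 2) * (η₂ * (D : ℝ) ^ (ε / 2)) := mul_le_mul_of_nonneg_left b1 (by positivity)
        _ = η₂ * (D * (D : ℝ) ^ (1 + ε)) := by rw [e2]; ring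
        _ = _ := by ring
    have e3 : ((ym j : ℕ) : ℝ) = j * h * Y := by
      rw [hym]
      push_cast
      ring
    rw [e3]
    refine e1.trans ?_
    have e4 : η₂ * (D : ℝ) ≤ j * h := by nlinarith
    exact mul_le_mul e4 hDY (by positivity) (by positivity)
  have hymp : ∀ j, ym j ≤ yp j := by
    intro j
    simp only [hym, hyp]
    exact Nat.mul_le_mul (Nat.mul_le_mul_right _ (by omega)) (by omega)
  have hDDe : (D : ℝ) ≤ (D : ℝ) ^ (2 + ε / 2) := by
    nth_rewrite 1 [← Real.rpow_one (D : ℝ)]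
    exact Real.rpow_le_rpow_of_exponent_le (by linarith) (by linarith)
  -- the exceptional set
  set B : Finset ℕ :=
    ((Finset.range J₁).filter (fun j => J₀ ≤ j)).biUnion (fun j => badM η₁ D (ym j) ∪ badM η₁ D (yp j)) with hB
  have hQ0 : 0 < (D : ℝ) / Real.log D ^ A := by
    have : 0 < Real.log (D : ℝ) := Real.log_pos (by linarith)
    positivity
  refine ⟨B, ?_, ?_, ?_⟩
  · rw [hB]
    intro d hd
    obtain ⟨j, _, h5⟩ := mem_biUnion.1 hd
    rcases mem_union.1 h5 with h6 | h6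
    · exact (mem_filter.1 h6).1
    · exact (mem_filter.1 h6).1
  · have c2 : ((((Finset.range J₁).filter (fun j => J₀ ≤ j)).biUnion
        (fun j => badM η₁ D (ym j) ∪ badM η₁ D (yp j))).card : ℝ) ≤ J₁ * (2 * (ρ * (D / Real.log D ^ A))) := by
      have e1 : (((Finset.range J₁).filter (fun j => J₀ ≤ j)).biUnion
        (fun j => badM η₁ D (ym j) ∪ badM η₁ D (yp j))).card ≤ ∑ j ∈ (Finset.range J₁).filter (fun j => J₀ ≤ j),
          ((badM η₁ D (ym j)).card + (badM η₁ D (yp j)).card) :=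
        card_biUnion_le.trans (sum_le_sum fun j _ => card_union_le _ _)
      have e2 : ((((Finset.range J₁).filter (fun j => J₀ ≤ j)).biUnion
        (fun j => badM η₁ D (ym j) ∪ badM η₁ D (yp j))).card : ℝ) ≤ ∑ j ∈ (Finset.range J₁).filter (fun j => J₀ ≤ j),
          (((badM η₁ D (ym j)).card : ℝ) + ((badM η₁ D (yp j)).card : ℝ)) := by exact_mod_cast e1
      refine e2.trans ?_
      calc ∑ j ∈ (Finset.range J₁).filter (fun j => J₀ ≤ j),
          (((badM η₁ D (ym j)).card : ℝ) + ((badM η₁ D (yp j)).card : ℝ))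
          ≤ ∑ _j ∈ (Finset.range J₁).filter (fun j => J₀ ≤ j), 2 * (ρ * (D / Real.log D ^ A)) := by
            apply sum_le_sum
            intro j hj
            have hj1 := (mem_filter.1 hj).2
            have f1 := h1 D (ym j) hD₁ (hymD j hj1)
            have f2 := h1 D (yp j) hD₁ ((hymD j hj1).trans (by exact_mod_cast hymp j))
            linarith
        _ = (((Finset.range J₁).filter (fun j => J₀ ≤ j)).card : ℝ) * (2 * (ρ * (D / Real.log D ^ A))) := by
            rw [sum_const, nsmul_eq_mul]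
        _ ≤ J₁ * (2 * (ρ * (D / Real.log D ^ A))) := by
            apply mul_le_mul_of_nonneg_right _ (by positivity)
            have := card_filter_le (Finset.range J₁) (fun j => J₀ ≤ j)
            rw [card_range] at this
            exact_mod_cast this
    have c3 : (J₁ : ℝ) * (2 * (ρ * (D / Real.log D ^ A))) ≤ ε * (D / Real.log D ^ A) := by
      have e0 : (J₁ : ℝ) * (2 * ρ) ≤ ε := by
        rw [hρ]
        have : (J₁ : ℝ) * (2 * (ε / (4 * J₁ + 4))) = (2 * J₁ / (4 * J₁ + 4)) * ε := by ring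
        rw [this]
        have e1 : 2 * (J₁ : ℝ) / (4 * J₁ + 4) ≤ 1 := by
          rw [div_le_one (by positivity)]
          have : (0 : ℝ) ≤ J₁ := Nat.cast_nonneg _
          linarith
        have e2 := mul_le_mul_of_nonneg_right e1 hε.le
        linarith
      calc (J₁ : ℝ) * (2 * (ρ * (D / Real.log D ^ A))) = ((J₁ : ℝ) * (2 * ρ)) * (D / Real.log D ^ A) := by ring
        _ ≤ ε * (D / Real.log D ^ A) := mul_le_mul_of_nonneg_right e0 hQ0.le
    exact c2.trans c3
  · intro d hd h2d hdB2 a ha had hcop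
    have hd1 := (mem_Icc.1 hd).1
    have hdD := (mem_Icc.1 hd).2
    rw [hB] at hdB2
    have hdJ : J₀ * h < d := by
      have h2dr : (D : ℝ) < 2 * d := by exact_mod_cast h2d
      have e1 : (J₀ : ℝ) * h ≤ (J₀ + 1) * (2 * (η₂ * D)) :=
        mul_le_mul (by linarith) hh2 hhr0.le (by positivity)
      have e2 : ((J₀ : ℝ) + 1) * (2 * (η₂ * D)) = D / 4 := by
        rw [hη₂]
        field_simp
        ring
      have e3 : ((J₀ * h : ℕ) : ℝ) < d := by
        push_cast
        linarith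
      exact_mod_cast e3
    set j : ℕ := (d - 1) / h with hj
    have hj1 : J₀ ≤ j := by
      rw [hj, Nat.le_div_iff_mul_le hh0]
      omega
    have hjh : j * h ≤ d - 1 := Nat.div_mul_le_self _ _
    have hjh' : d - 1 < (j + 1) * h := by
      have := Nat.lt_div_mul_add hh0 (a := d - 1)
      calc d - 1 < (d - 1) / h * h + h := this
        _ = (j + 1) * h := by rw [hj]; ring
    have hdr : (1 : ℝ) ≤ d := by exact_mod_cast hd1
    have hdDr : (d : ℝ) ≤ D := by exact_mod_cast hdD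
    have hj2 : j < J₁ := by
      have e1 : (j : ℝ) * h < D := by
        have : ((j * h : ℕ) : ℝ) < D := by
          have : j * h < D := by omega
          exact_mod_cast this
        push_cast at this
        exact this
      have e2 : (j : ℝ) * (η₂ * D) < D := lt_of_le_of_lt (mul_le_mul_of_nonneg_left hh1.le (Nat.cast_nonneg _)) e1
      have e3 : (j : ℝ) < 1 / η₂ := by
        rw [lt_div_iff₀ hη₂0]
        have : (j : ℝ) * η₂ * D < 1 * D := by linarith
        exact lt_of_mul_lt_mul_right this hD0.le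
      exact_mod_cast e3.trans_le hJ₁r
    have hgood : d ∉ badM η₁ D (ym j) ∧ d ∉ badM η₁ D (yp j) := by
      constructor
      · intro h5
        exact hdB2 (mem_biUnion.2 ⟨j, mem_filter.2 ⟨mem_range.2 hj2, hj1⟩, mem_union_left _ h5⟩)
      · intro h5
        exact hdB2 (mem_biUnion.2 ⟨j, mem_filter.2 ⟨mem_range.2 hj2, hj1⟩, mem_union_right _ h5⟩)
    have hEm : |Er (ym j) d a| ≤ η₁ * (ym j / (d * Real.log (ym j))) := by
      by_contra h5
      exact hgood.1 (mem_filter.2 ⟨hd, a, hcop, not_le.1 h5⟩)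
    have hEp : |Er (yp j) d a| ≤ η₁ * (yp j / (d * Real.log (yp j))) := by
      by_contra h5
      exact hgood.2 (mem_filter.2 ⟨hd, a, hcop, not_le.1 h5⟩)
    have hjr : 1 / η₁ ≤ j := hJ₀r.trans (by exact_mod_cast hj1)
    rw [div_le_iff₀ hη₁0] at hjr
    have hymy : D ≤ ym j := by
      have : (D : ℝ) ≤ ym j := hDDe.trans (hymD j hj1)
      exact_mod_cast this
    have hd2 : (d : ℝ) ≤ (j + 1) * h := by
      have : d ≤ (j + 1) * h := by omega
      exact_mod_cast this
    have hd3 : (j : ℝ) * h ≤ d := by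
      have : j * h ≤ d := by omega
      exact_mod_cast this
    have hY0 : (0 : ℝ) ≤ Y := Nat.cast_nonneg _
    have hYη : 1 ≤ η₁ * (Y : ℝ) := b3.trans (mul_le_mul_of_nonneg_left hDYr hη₁0.le)
    have hφ0 : (0 : ℝ) < d.totient := by exact_mod_cast Nat.totient_pos.2 (by omega)
    have hφd : (d.totient : ℝ) ≤ d := by exact_mod_cast Nat.totient_le d
    have hY3 : (3 : ℝ) ≤ Y := hDr.trans hDYr
    have hlY : 0 < Real.log (Y : ℝ) := Real.log_pos (by linarith)
    have hldY : Real.log (d * Y : ℝ) ≤ 2 * Real.log Y := by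
      rw [Real.log_mul (by linarith) (by linarith)]
      have := Real.log_le_log (by linarith) (hdDr.trans hDYr)
      linarith
    have hldY0 : 0 < Real.log (d * Y : ℝ) := Real.log_pos (by nlinarith)
    have hM : 1 ≤ η₁ * mexp d Y := by
      unfold mexp
      rw [← mul_div_assoc, le_div_iff₀ (by positivity), one_mul]
      calc (d.totient : ℝ) * Real.log (d * Y : ℝ) ≤ d * (2 * Real.log Y) := mul_le_mul hφd hldY hldY0.le (by linarith)
        _ ≤ d * (η₁ * Y) := mul_le_mul_of_nonneg_left b5 (by linarith)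
        _ = η₁ * (d * Y) := by ring
    have hym1 : ym j ≤ d * Y := by
      simp only [hym]
      exact Nat.mul_le_mul_right _ (by omega)
    have hyp1 : d * (Y + 1) ≤ yp j := by
      simp only [hyp]
      exact Nat.mul_le_mul_right _ (by omega)
    have hres := deg_good η₁ hη₁0 (by linarith) d Y a (ym j) (yp j) hd1 had hYη (by omega) hym1 hyp1
      (by
        have e3 : ((ym j : ℕ) : ℝ) = j * h * Y := by
          rw [hym]
          push_cast
          ring
        rw [e3, ← mul_assoc]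
        apply mul_le_mul_of_nonneg_right _ hY0
        have e4 : (1 - η₁) * ((j : ℝ) + 1) ≤ j := by nlinarith
        calc (1 - η₁) * (d : ℝ) ≤ (1 - η₁) * ((j + 1) * h) := mul_le_mul_of_nonneg_left hd2 (by linarith)
          _ = ((1 - η₁) * (j + 1)) * h := by ring
          _ ≤ j * h := mul_le_mul_of_nonneg_right e4 hhr0.le)
      (by
        have e3 : ((yp j : ℕ) : ℝ) = (j + 1) * h * (Y + 1) := by
          rw [hyp]
          push_cast
          ring
        rw [e3, ← mul_assoc]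
        apply mul_le_mul_of_nonneg_right _ (by linarith)
        calc ((j : ℝ) + 1) * h ≤ ((1 + η₁) * j) * h := by
              apply mul_le_mul_of_nonneg_right _ hhr0.le
              nlinarith
          _ = (1 + η₁) * (j * h) := by ring
          _ ≤ (1 + η₁) * d := mul_le_mul_of_nonneg_left hd3 (by linarith))
      hEm hEp (h2 (ym j) (hDy₀.trans hymy)).1 (h2 (yp j) (hDy₀.trans (hymy.trans (hymp j)))).2 hM
    have e20 : 20 * η₁ = η := by rw [hη₁]; ring
    rw [e20] at hres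
    exact hres


end Pool.Agent.Q145.UM
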