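import Pool.Agent.Q145.UM.Set
import Pool.Agent.Q145.RA.All

set_option autoImplicit false
set_option maxHeartbeats 4000000

/-! # The law for the classes to all moduli in `(D/2, D]` -/

namespace Pool.Agent.Q145.UM

open Finset Filter
open Pool.Agent.Q145.RA (cnt pnt mexp growthM Reg card_filter_inst seqs surv sum_surv kap low card_restrict)

open scoped Classical

variable {α β : Type}

/-- the first moment -/
theorem up' (c : ℝ) (S : Finset β) (V : Finset α) (R : α → β → Prop)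
    (h : ∀ n ∈ V, c * S.card ≤ ((S.filter (fun a => R n a)).card : ℝ)) (k : ℕ) (t : ℝ) (ht : 0 < t) :
    (((seqs S k).filter (fun s => t ≤ surv R V s)).card : ℝ) ≤
      (S.card : ℝ) ^ k * (V.card * Real.exp (-(c * k)) / t) := by
  have hS0 : (0 : ℝ) ≤ S.card := Nat.cast_nonneg _
  have h1 : (((seqs S k).filter (fun s => t ≤ surv R V s)).card : ℝ) * t ≤ ∑ s ∈ seqs S k, (surv R V s : ℝ) := by
    calc (((seqs S k).filter (fun s => t ≤ surv R V s)).card : ℝ) * t
        = ∑ _s ∈ (seqs S k).filter (fun s => t ≤ surv R V s), t := by rw [sum_const, nsmul_eq_mul]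
      _ ≤ ∑ s ∈ (seqs S k).filter (fun s => t ≤ surv R V s), (surv R V s : ℝ) :=
          sum_le_sum fun s hs => (mem_filter.1 hs).2
      _ ≤ _ := sum_le_sum_of_subset_of_nonneg (filter_subset _ _) (fun _ _ _ => Nat.cast_nonneg _)
  have h2 : ∑ s ∈ seqs S k, (surv R V s : ℝ) ≤ (S.card : ℝ) ^ k * (V.card * Real.exp (-(c * k))) := by
    have h3 : ∑ s ∈ seqs S k, (surv R V s : ℝ) =
        ∑ n ∈ V, ((S.filter (fun a => ¬ R n a)).card : ℝ) ^ k := by
      exact_mod_cast sum_surv S V R k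
    rw [h3]
    have h4 : ∀ n ∈ V, ((S.filter (fun a => ¬ R n a)).card : ℝ) ^ k ≤
        (S.card : ℝ) ^ k * Real.exp (-(c * k)) := by
      intro n hn
      have h5 := h n hn
      have h6 := card_filter_add_card_filter_not (s := S) (fun a => R n a)
      have h7 : ((S.filter (fun a => R n a)).card : ℝ) + ((S.filter (fun a => ¬ R n a)).card : ℝ) = S.card := by
        exact_mod_cast h6
      have h8 : ((S.filter (fun a => ¬ R n a)).card : ℝ) ≤ S.card * Real.exp (-c) := by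
        have h9 := Real.add_one_le_exp (-c)
        have h10 := mul_le_mul_of_nonneg_left h9 hS0
        nlinarith
      calc ((S.filter (fun a => ¬ R n a)).card : ℝ) ^ k ≤ (S.card * Real.exp (-c)) ^ k :=
            pow_le_pow_left₀ (Nat.cast_nonneg _) h8 k
        _ = (S.card : ℝ) ^ k * Real.exp (-(c * k)) := by
            rw [mul_pow, ← Real.exp_nat_mul]
            congr 2
            ring
    refine (sum_le_sum h4).trans (le_of_eq ?_)
    rw [sum_const, nsmul_eq_mul]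
    ring
  rw [← mul_div_assoc, le_div_iff₀ ht]
  exact h1.trans h2

/-- the critical unit `log D log (D Y)` -/
noncomputable def unit (D Y : ℕ) : ℝ := Real.log D * Real.log (D * Y : ℝ)

/-- the law -/
def Fx (ε : ℝ) (D Y : ℕ) (B : Finset ℕ) (K : ℕ) (s : Fin K → ℕ) : Prop :=
  ((K : ℝ) / unit D Y ≤ 2 - ε → (D : ℝ) ^ (2 - (K : ℝ) / unit D Y - ε) ≤ surv RR (QQ D B) s ∧
    (surv RR (PP D B) s : ℝ) ≤ (D : ℝ) ^ (2 - (K : ℝ) / unit D Y + ε)) ∧
  (2 + ε ≤ (K : ℝ) / unit D Y → surv RR (PP D B) s = 0)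

theorem fx (A : ℕ) (ε : ℝ) (hε : 0 < ε) (hε1 : ε ≤ 1) : ∃ D₀ : ℕ, ∀ D Y : ℕ, D₀ ≤ D →
    (D : ℝ) ^ (1 + ε) ≤ Y → ∃ B ⊆ Icc 1 D, (B.card : ℝ) ≤ D / Real.log D ^ A ∧ ∀ K : ℕ,
    (((seqs (Icc 1 Y) K).filter (fun s => ¬ Fx ε D Y B K s)).card : ℝ) ≤ ε * (Y : ℝ) ^ K := by
  set η : ℝ := ε / 400 with hη
  have hη0 : 0 < η := by positivity
  obtain ⟨D₁, h1⟩ := deg (A + 1) (η / 4) (ε / 8) (by positivity) (by linarith) (by positivity)
  obtain ⟨D₂, h2⟩ := reg_pairs η hη0 (by linarith)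
  obtain ⟨X₀, h3⟩ := low (α := ℕ × ℕ) (β := ℕ) (ε / 4) (by positivity) (by linarith)
  obtain ⟨D₃, h4⟩ := card_QQ
  have hl : Tendsto (fun Y : ℕ => Real.log Y) atTop atTop :=
    Real.tendsto_log_atTop.comp tendsto_natCast_atTop_atTop
  have a1 : ∀ᶠ D : ℕ in atTop, 64 * Real.log D ≤ (D : ℝ) ^ (ε / 4) := by
    have h5 := (isLittleO_log_rpow_atTop (show (0 : ℝ) < ε / 4 by positivity)).bound (show (0 : ℝ) < 1 / 64 by norm_num)
    filter_upwards [tendsto_natCast_atTop_atTop.eventually h5, hl.eventually_ge_atTop 0] with D h6 h7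
    rw [Real.norm_of_nonneg h7, Real.norm_of_nonneg (by positivity)] at h6
    linarith
  have a3 : ∀ᶠ X : ℕ in atTop, (1 : ℝ) ≤ ε / 4 * Real.exp (ε / 4 * Real.log X) :=
    ((Real.tendsto_exp_atTop.comp (hl.const_mul_atTop (show 0 < ε / 4 by positivity))).const_mul_atTop
      (show 0 < ε / 4 by positivity)).eventually_ge_atTop _
  obtain ⟨D₄, h5⟩ := eventually_atTop.1 (a1.and (a3.and ((hl.eventually_ge_atTop 1).and (eventually_ge_atTop (max X₀ 3)))))
  refine ⟨max (max D₁ D₂) (max D₃ D₄), fun D Y hD hDY => ?_⟩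
  have hD₁ : D₁ ≤ D := ((le_max_left _ _).trans (le_max_left _ _)).trans hD
  have hD₂ : D₂ ≤ D := ((le_max_right _ _).trans (le_max_left _ _)).trans hD
  have hD₃ : D₃ ≤ D := ((le_max_left _ _).trans (le_max_right _ _)).trans hD
  have hD₄ : D₄ ≤ D := ((le_max_right _ _).trans (le_max_right _ _)).trans hD
  obtain ⟨g1, g2, g3, g4⟩ := h5 D hD₄
  have hDX : X₀ ≤ D := (le_max_left _ _).trans g4
  have hD3 : 3 ≤ D := (le_max_right _ _).trans g4
  have hDr : (3 : ℝ) ≤ D := by exact_mod_cast hD3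
  have hD0 : (0 : ℝ) < D := by linarith
  have hD1 : (1 : ℝ) ≤ D := by linarith
  have hDYr : (D : ℝ) ≤ Y := by
    refine le_trans ?_ hDY
    calc (D : ℝ) = (D : ℝ) ^ (1 : ℝ) := (Real.rpow_one _).symm
      _ ≤ (D : ℝ) ^ (1 + ε) := Real.rpow_le_rpow_of_exponent_le (by linarith) (by linarith)
  have hDYn : D ≤ Y := by exact_mod_cast hDYr
  have hDY2 : (D : ℝ) ^ (1 + ε / 8) ≤ Y := le_trans (Real.rpow_le_rpow_of_exponent_le (by linarith) (by linarith)) hDY
  obtain ⟨B, hB1, hB2, hB3⟩ := h1 D Y hD₁ hDY2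
  set L := Real.log (D : ℝ) with hL
  have hL0 : 0 < L := by linarith
  have hYr : (3 : ℝ) ≤ Y := by linarith
  set W : ℝ := Real.log (D * Y : ℝ) with hW
  have hW1 : L ≤ W := by
    rw [hL, hW]
    exact Real.log_le_log hD0 (by nlinarith)
  have hW0 : 0 < W := by linarith
  have hdel : del D Y = 1 / W := rfl
  have hunit : unit D Y = L * W := rfl
  have hP0 : 0 < L * W := by positivity
  have hBA : (B.card : ℝ) ≤ 1 / 8 * (D / L ^ (A + 1)) := by
    refine hB2.trans (mul_le_mul_of_nonneg_right (by linarith) (by positivity))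
  have hpow1 : ∀ m n : ℕ, m ≤ n → (D : ℝ) / L ^ n ≤ D / L ^ m := by
    intro m n hmn
    exact div_le_div_of_nonneg_left hD0.le (by positivity) (pow_le_pow_right₀ g3 hmn)
  have hB8 : (B.card : ℝ) ≤ 1 / 8 * (D / Real.log D) := by
    refine hBA.trans (mul_le_mul_of_nonneg_left ?_ (by norm_num))
    have := hpow1 1 (A + 1) (by omega)
    rwa [pow_one] at this
  have hBA' : (B.card : ℝ) ≤ D / Real.log D ^ A := by
    have e1 := hpow1 A (A + 1) (by omega)
    have e2 : 0 ≤ (D : ℝ) / L ^ (A + 1) := by positivity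
    linarith
  refine ⟨B, hB1, hBA', fun K => ?_⟩
  -- the size of `QQ`
  have hQ := h4 D hD₃ B hB8
  have hDpow : ∀ u : ℝ, (D : ℝ) ^ u = Real.exp (L * u) := fun u => by rw [Real.rpow_def_of_pos hD0]
  have hQ2 : (D : ℝ) ^ (2 - ε / 4) ≤ (QQ D B).card := by
    refine le_trans ?_ hQ
    rw [le_div_iff₀ (by positivity), Real.rpow_sub hD0]
    have e1 : (D : ℝ) ^ (2 : ℝ) = (D : ℝ) ^ 2 := by
      rw [show (2 : ℝ) = ((2 : ℕ) : ℝ) by norm_num, Real.rpow_natCast]
    rw [e1, div_mul_eq_mul_div, div_le_iff₀ (by positivity)]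
    exact mul_le_mul_of_nonneg_left g1 (by positivity)
  have hQD : (D : ℝ) ≤ (QQ D B).card := by
    refine le_trans ?_ hQ2
    nth_rewrite 1 [← Real.rpow_one (D : ℝ)]
    exact Real.rpow_le_rpow_of_exponent_le hD1 (by linarith)
  have hQDn : D ≤ (QQ D B).card := by exact_mod_cast hQD
  set X : ℕ := (QQ D B).card with hX
  have hX0 : (0 : ℝ) < X := by linarith
  have hX2 : (X : ℝ) ≤ (D : ℝ) ^ 2 := by
    have : X ≤ D ^ 2 := (card_filter_le _ _).trans (card_PP D B)
    exact_mod_cast this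
  have hlX : Real.log (X : ℝ) ≤ 2 * L := by
    have := Real.log_le_log hX0 hX2
    rw [Real.log_pow] at this
    exact_mod_cast this
  have hlX' : (2 - ε / 4) * L ≤ Real.log (X : ℝ) := by
    have h6 := Real.log_le_log (by positivity) hQ2
    rwa [Real.log_rpow hD0] at h6
  have hlX0 : 0 < Real.log (X : ℝ) := by
    have : 0 < (2 - ε / 4) * L := mul_pos (by linarith) hL0
    linarith
  have hreg := h2 D Y hD₂ hDYn B (hD3.trans hQDn) hB3
  set x : ℝ := (K : ℝ) / unit D Y with hx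
  have hx0 : 0 ≤ x := by
    rw [hx, hunit]
    positivity
  have hKx : (K : ℝ) = x * (L * W) := by
    rw [hx, hunit]
    field_simp
  have hYK : (0 : ℝ) ≤ (Y : ℝ) ^ K := by positivity
  have hexp : Real.exp (-(ε / 4 * L)) ≤ ε / 4 := by
    rw [Real.exp_neg, inv_le_comm₀ (Real.exp_pos _) (by positivity)]
    rw [inv_le_iff_one_le_mul₀ (by positivity)]
    linarith
  -- the upper bound
  have hup : ∀ t : ℝ, 0 < t → (((seqs (Icc 1 Y) K).filter (fun s => t ≤ surv RR (PP D B) s)).card : ℝ) ≤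
      (Y : ℝ) ^ K * (Real.exp (L * (2 - (1 - ε / 16) * x)) / t) := by
    intro t ht
    have h6 := up' ((1 - η / 4) * del D Y) (Icc 1 Y) (PP D B) RR (by
      intro z hz
      obtain ⟨h6, h7, h8, h9, h10, h11⟩ := (mem_PP D B z).1 hz
      have h13 := (hB3 z.1 (mem_Icc.2 h6) h7 h8 z.2 h9 h10 h11).1
      have h14 := mexp_ge D Y z.1 h6.1 h6.2 (by omega)
      rw [Nat.card_Icc, Nat.add_sub_cancel]
      calc (1 - η / 4) * del D Y * Y = (1 - η / 4) * (del D Y * Y) := by ring
        _ ≤ (1 - η / 4) * mexp z.1 Y := mul_le_mul_of_nonneg_left h14 (by linarith)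
        _ ≤ cnt z.1 Y z.2 := h13
        _ = _ := (congrArg Nat.cast (card_filter_inst _ _ _ _))) K t ht
    rw [Nat.card_Icc, Nat.add_sub_cancel] at h6
    refine h6.trans (mul_le_mul_of_nonneg_left (div_le_div_of_nonneg_right ?_ ht.le) hYK)
    have h7 : ((PP D B).card : ℝ) ≤ Real.exp (L * 2) := by
      have h8 : ((PP D B).card : ℝ) ≤ (D : ℝ) ^ 2 := by exact_mod_cast card_PP D B
      refine h8.trans (le_of_eq ?_)
      rw [← hDpow, show (2 : ℝ) = ((2 : ℕ) : ℝ) by norm_num, Real.rpow_natCast]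
    refine (mul_le_mul_of_nonneg_right h7 (Real.exp_pos _).le).trans ?_
    rw [← Real.exp_add]
    apply Real.exp_le_exp.2
    have h8 : (1 - η / 4) * del D Y * K = (1 - η / 4) * (x * L) := by
      rw [hdel, hKx]
      field_simp
    rw [h8]
    have : 0 ≤ x * L := by positivity
    nlinarith
  -- the lower bound
  have hlow : x ≤ 2 - ε → (((seqs (Icc 1 Y) K).filter
      (fun s => (surv RR (QQ D B) s : ℝ) < (D : ℝ) ^ (2 - x - ε))).card : ℝ) ≤ ε / 4 * (Y : ℝ) ^ K := by
    intro hx2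
    have hkap : kap (del D Y) X K = x * L / Real.log X := by
      unfold kap
      rw [hdel, hKx]
      field_simp
    have h6 := h3 (del D Y) (Icc 1 Y) (QQ D B) RR (by rw [hdel]; positivity)
      (by rw [show ε / 4 / 100 = η by rw [hη]; ring]; exact hreg) (hDX.trans hQDn) K (by
      rw [← hX, hkap, div_le_iff₀ hlX0]
      have e1 : (1 - ε / 4) * ((2 - ε / 4) * L) ≤ (1 - ε / 4) * Real.log X :=
        mul_le_mul_of_nonneg_left hlX' (by linarith)
      have e2 : x * L ≤ (1 - ε / 4) * ((2 - ε / 4) * L) := by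
        rw [← mul_assoc]
        apply mul_le_mul_of_nonneg_right _ hL0.le
        nlinarith
      linarith)
    rw [← hX, Nat.card_Icc, Nat.add_sub_cancel] at h6
    refine le_trans ?_ h6
    have h7 : (D : ℝ) ^ (2 - x - ε) ≤ (X : ℝ) ^ (1 - kap (del D Y) X K - ε / 4) := by
      rw [hDpow, Real.rpow_def_of_pos hX0, hkap]
      apply Real.exp_le_exp.2
      have e1 : Real.log (X : ℝ) * (1 - x * L / Real.log X - ε / 4) = (1 - ε / 4) * Real.log X - x * L := by
        field_simp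
        ring
      rw [e1]
      have e2 : (1 - ε / 4) * ((2 - ε / 4) * L) ≤ (1 - ε / 4) * Real.log X :=
        mul_le_mul_of_nonneg_left hlX' (by linarith)
      have e3 : L * (2 - ε) ≤ (1 - ε / 4) * ((2 - ε / 4) * L) := by nlinarith [mul_nonneg (mul_nonneg hε.le hε.le) hL0.le]
      nlinarith
    apply Nat.cast_le.2
    apply card_le_card
    intro s hs
    obtain ⟨h8, h9⟩ := mem_filter.1 hs
    exact mem_filter.2 ⟨h8, h9.le.trans h7⟩
  -- the union
  rcases lt_or_ge (2 - ε) x with hc | hc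
  · rcases lt_or_ge x (2 + ε) with hd | hd
    · have h6 : (seqs (Icc 1 Y) K).filter (fun s => ¬ Fx ε D Y B K s) = ∅ := by
        apply filter_false_of_mem
        intro s _ h7
        apply h7
        exact ⟨fun h8 => absurd h8 (not_le.2 hc), fun h8 => absurd hd (not_lt.2 h8)⟩
      rw [h6, card_empty, Nat.cast_zero]
      exact mul_nonneg hε.le hYK
    · have h6 : (seqs (Icc 1 Y) K).filter (fun s => ¬ Fx ε D Y B K s) ⊆
          (seqs (Icc 1 Y) K).filter (fun s => (1 : ℝ) ≤ surv RR (PP D B) s) := by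
        intro s hs
        obtain ⟨h7, h8⟩ := mem_filter.1 hs
        refine mem_filter.2 ⟨h7, ?_⟩
        by_contra h9
        apply h8
        refine ⟨fun h10 => absurd h10 (not_le.2 hc), fun _ => ?_⟩
        by_contra h10
        apply h9
        exact_mod_cast Nat.one_le_iff_ne_zero.2 h10
      have h7 : (((seqs (Icc 1 Y) K).filter (fun s => ¬ Fx ε D Y B K s)).card : ℝ) ≤
          (((seqs (Icc 1 Y) K).filter (fun s => (1 : ℝ) ≤ surv RR (PP D B) s)).card : ℝ) := by
        exact_mod_cast card_le_card h6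
      refine (h7.trans (hup 1 one_pos)).trans ?_
      rw [div_one, mul_comm]
      apply mul_le_mul_of_nonneg_right _ hYK
      calc Real.exp (L * (2 - (1 - ε / 16) * x)) ≤ Real.exp (-(ε / 4 * L)) := by
            apply Real.exp_le_exp.2
            have : 2 - (1 - ε / 16) * x ≤ -(ε / 4) := by nlinarith
            nlinarith
        _ ≤ ε / 4 := hexp
        _ ≤ ε := by linarith
  · have h6 : (seqs (Icc 1 Y) K).filter (fun s => ¬ Fx ε D Y B K s) ⊆
        (seqs (Icc 1 Y) K).filter (fun s => (surv RR (QQ D B) s : ℝ) < (D : ℝ) ^ (2 - x - ε)) ∪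
        (seqs (Icc 1 Y) K).filter (fun s => (D : ℝ) ^ (2 - x + ε) ≤ surv RR (PP D B) s) := by
      intro s hs
      obtain ⟨h7, h8⟩ := mem_filter.1 hs
      by_contra h9
      rw [mem_union, not_or, mem_filter, mem_filter] at h9
      obtain ⟨h10, h11⟩ := h9
      apply h8
      refine ⟨fun _ => ⟨?_, ?_⟩, fun h12 => by linarith⟩
      · by_contra h12
        exact h10 ⟨h7, not_le.1 h12⟩
      · by_contra h12
        exact h11 ⟨h7, (not_le.1 h12).le⟩
    have h7 : (((seqs (Icc 1 Y) K).filter (fun s => ¬ Fx ε D Y B K s)).card : ℝ) ≤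
        (((seqs (Icc 1 Y) K).filter (fun s => (surv RR (QQ D B) s : ℝ) < (D : ℝ) ^ (2 - x - ε))).card : ℝ) +
        (((seqs (Icc 1 Y) K).filter (fun s => (D : ℝ) ^ (2 - x + ε) ≤ surv RR (PP D B) s)).card : ℝ) := by
      exact_mod_cast (card_le_card h6).trans (card_union_le _ _)
    have h8 := hlow hc
    have h9 := hup ((D : ℝ) ^ (2 - x + ε)) (Real.rpow_pos_of_pos hD0 _)
    have h10 : Real.exp (L * (2 - (1 - ε / 16) * x)) / (D : ℝ) ^ (2 - x + ε) ≤ ε / 4 := by
      rw [hDpow, ← Real.exp_sub]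
      refine le_trans (Real.exp_le_exp.2 ?_) hexp
      have : (2 - (1 - ε / 16) * x) - (2 - x + ε) ≤ -(ε / 4) := by nlinarith
      nlinarith
    have h11 := mul_le_mul_of_nonneg_left h10 hYK
    have h12 : ε / 4 * (Y : ℝ) ^ K + (Y : ℝ) ^ K * (ε / 4) ≤ ε * (Y : ℝ) ^ K := by nlinarith
    linarith

end Pool.Agent.Q145.UM
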