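import Pool.Agent.Q145.RA.MultCount

set_option autoImplicit false
set_option maxHeartbeats 4000000

/-! # Multipliers which put several classes to several moduli into the primes -/

namespace Pool.Agent.Q145.UM

open Finset Filter
open Pool.Agent.TH101.RG (inv_ge_one)
open Pool.Agent.H373R2.T7 (pz nuB PerB mem_pz sys_fund Vz nuB_le)
open Pool.Agent.Q145.RC (Vz_eq exists_root_nat growth)
open Pool.Agent.Q145.MT (card_filter_inst)
open Pool.Agent.Q145.RA (ratio_log prod_sub_le)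

open scoped Classical

/-- the conditions; pairs are (modulus, class) -/
def QP (H : Finset (ℕ × ℕ)) (p s : ℕ) : Prop := ∃ x ∈ H, p ∣ x.2 + s * x.1

theorem QP_iff (H : Finset (ℕ × ℕ)) (p s : ℕ) : QP H p s ↔ ∃ x ∈ H, (x.2 : ZMod p) + s * x.1 = 0 := by
  unfold QP
  constructor
  · rintro ⟨x, hx, h⟩
    refine ⟨x, hx, ?_⟩
    have := (ZMod.natCast_eq_zero_iff (x.2 + s * x.1) p).2 h
    push_cast at this
    exact this
  · rintro ⟨x, hx, h⟩
    refine ⟨x, hx, ?_⟩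
    rw [← ZMod.natCast_eq_zero_iff]
    push_cast
    exact h

theorem QP_per (H : Finset (ℕ × ℕ)) (p s : ℕ) : QP H p s ↔ QP H p (s % p) := by
  rw [QP_iff, QP_iff, ZMod.natCast_mod]

/-- the discriminant of two classes -/
def disc (x y : ℕ × ℕ) : ℕ := ((x.2 : ℤ) * y.1 - y.2 * x.1).natAbs

/-- the product of the moduli and of the discriminants -/
noncomputable def ED (H : Finset (ℕ × ℕ)) : ℕ :=
  (∏ x ∈ H, x.1) * ∏ z ∈ (H ×ˢ H).filter (fun z => z.1 ≠ z.2), disc z.1 z.2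

theorem ED_ne (H : Finset (ℕ × ℕ)) (h1 : ∀ x ∈ H, 1 ≤ x.1) (h2 : ∀ x ∈ H, ∀ y ∈ H, x ≠ y → disc x y ≠ 0) :
    ED H ≠ 0 := by
  unfold ED
  apply mul_ne_zero
  · apply prod_ne_zero_iff.2
    intro x hx
    have := h1 x hx
    omega
  · apply prod_ne_zero_iff.2
    intro z hz
    obtain ⟨h3, h4⟩ := mem_filter.1 hz
    exact h2 z.1 (mem_product.1 h3).1 z.2 (mem_product.1 h3).2 h4

theorem disc_le (x y : ℕ × ℕ) (Y : ℕ) (h1 : x.1 ≤ Y) (h2 : x.2 ≤ Y) (h3 : y.1 ≤ Y) (h4 : y.2 ≤ Y) :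
    disc x y ≤ Y ^ 2 := by
  unfold disc
  have e1 : (x.2 : ℤ) * y.1 ≤ Y ^ 2 := by
    have : x.2 * y.1 ≤ Y * Y := Nat.mul_le_mul h2 h3
    rw [sq]
    exact_mod_cast this
  have e2 : (y.2 : ℤ) * x.1 ≤ Y ^ 2 := by
    have : y.2 * x.1 ≤ Y * Y := Nat.mul_le_mul h4 h1
    rw [sq]
    exact_mod_cast this
  have e3 : (0 : ℤ) ≤ (x.2 : ℤ) * y.1 := by positivity
  have e4 : (0 : ℤ) ≤ (y.2 : ℤ) * x.1 := by positivity
  have e5 : (((x.2 : ℤ) * y.1 - y.2 * x.1).natAbs : ℤ) ≤ (Y ^ 2 : ℤ) := by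
    rw [Int.natCast_natAbs, abs_le]
    constructor <;> linarith
  exact_mod_cast e5

theorem ED_le (H : Finset (ℕ × ℕ)) (Y : ℕ) (hY : 1 ≤ Y) (hH : ∀ x ∈ H, x.1 ≤ Y ∧ x.2 ≤ Y) :
    ED H ≤ Y ^ (3 * H.card ^ 2) := by
  unfold ED
  have h1 : ∏ x ∈ H, x.1 ≤ Y ^ (H.card ^ 2) := by
    calc ∏ x ∈ H, x.1 ≤ ∏ _x ∈ H, Y := prod_le_prod (fun _ _ => Nat.zero_le _) fun x hx => (hH x hx).1
      _ = Y ^ H.card := by rw [prod_const]
      _ ≤ Y ^ (H.card ^ 2) := Nat.pow_le_pow_right hY (by nlinarith [sq_nonneg H.card, Nat.le_self_pow (show 2 ≠ 0 by norm_num) H.card])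
  have h2 : ∏ z ∈ (H ×ˢ H).filter (fun z => z.1 ≠ z.2), disc z.1 z.2 ≤ (Y ^ 2) ^ (H.card ^ 2) := by
    calc ∏ z ∈ (H ×ˢ H).filter (fun z => z.1 ≠ z.2), disc z.1 z.2 ≤
        ∏ _z ∈ (H ×ˢ H).filter (fun z => z.1 ≠ z.2), Y ^ 2 := by
          apply prod_le_prod (fun _ _ => Nat.zero_le _)
          intro z hz
          have h3 := mem_product.1 (mem_filter.1 hz).1
          exact disc_le z.1 z.2 Y (hH _ h3.1).1 (hH _ h3.1).2 (hH _ h3.2).1 (hH _ h3.2).2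
      _ = (Y ^ 2) ^ ((H ×ˢ H).filter (fun z => z.1 ≠ z.2)).card := by rw [prod_const]
      _ ≤ (Y ^ 2) ^ (H.card ^ 2) := by
          apply Nat.pow_le_pow_right (Nat.pos_of_ne_zero (pow_ne_zero _ (by omega)))
          refine (card_filter_le _ _).trans ?_
          rw [card_product, sq]
  calc _ ≤ Y ^ (H.card ^ 2) * (Y ^ 2) ^ (H.card ^ 2) := Nat.mul_le_mul h1 h2
    _ = Y ^ (3 * H.card ^ 2) := by
        rw [← pow_mul, ← pow_add]
        congr 1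
        ring

theorem filter_sub (H : Finset (ℕ × ℕ)) (p : ℕ) (hp : p.Prime) (hH : ∀ x ∈ H, x.2.Coprime x.1) :
    (range p).filter (fun s => QP H p s) ⊆
      (H.filter (fun x => ¬ p ∣ x.1)).image (fun x : ℕ × ℕ => (-(x.2 : ZMod p) * (x.1 : ZMod p)⁻¹).val) := by
  have : Fact p.Prime := ⟨hp⟩
  intro s hs
  obtain ⟨h1, h2⟩ := mem_filter.1 hs
  have h1' := mem_range.1 h1
  obtain ⟨x, hx, h3⟩ := h2
  have hpx : ¬ p ∣ x.1 := by
    intro h
    have h4 : p ∣ x.2 := (Nat.dvd_add_left (Dvd.dvd.mul_left h s)).1 h3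
    have h5 := Nat.dvd_gcd h4 h
    rw [hH x hx] at h5
    exact hp.one_lt.ne' (Nat.dvd_one.1 h5)
  have hd0 : (x.1 : ZMod p) ≠ 0 := fun h => hpx ((ZMod.natCast_eq_zero_iff _ p).1 h)
  rw [mem_image]
  refine ⟨x, mem_filter.2 ⟨hx, hpx⟩, ?_⟩
  have h4 : (x.2 : ZMod p) + s * x.1 = 0 := by
    have := (ZMod.natCast_eq_zero_iff (x.2 + s * x.1) p).2 h3
    push_cast at this
    exact this
  have h5 : -(x.2 : ZMod p) * (x.1 : ZMod p)⁻¹ = s := by
    rw [← div_eq_mul_inv, div_eq_iff hd0]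
    linear_combination -h4
  rw [h5, ZMod.val_natCast, Nat.mod_eq_of_lt h1']

theorem perP (H : Finset (ℕ × ℕ)) (hH : ∀ x ∈ H, x.2.Coprime x.1) : PerB (QP H) H.card where
  per := QP_per H
  few := by
    intro p hp
    unfold nuB
    refine (le_of_eq (card_filter_inst _ _ _ _)).trans ((card_le_card (filter_sub H p hp hH)).trans ?_)
    exact card_image_le.trans (card_filter_le _ _)

theorem nuP_full (H : Finset (ℕ × ℕ)) (p : ℕ) (hp : p.Prime) (hE : ¬ p ∣ ED H) : H.card ≤ nuB (QP H) p := by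
  have : Fact p.Prime := ⟨hp⟩
  have hpd : ∀ x ∈ H, ¬ p ∣ x.1 := by
    intro x hx h
    apply hE
    unfold ED
    exact Dvd.dvd.mul_right (h.trans (dvd_prod_of_mem _ hx)) _
  have hpz : ∀ x ∈ H, (x.1 : ZMod p) ≠ 0 := fun x hx h => hpd x hx ((ZMod.natCast_eq_zero_iff _ p).1 h)
  have hinj : Set.InjOn (fun x : ℕ × ℕ => (-(x.2 : ZMod p) * (x.1 : ZMod p)⁻¹).val) H := by
    intro x hx y hy h
    by_contra hxy
    have hx' : x ∈ H := hx
    have hy' : y ∈ H := hy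
    have h1 : -(x.2 : ZMod p) * (x.1 : ZMod p)⁻¹ = -(y.2 : ZMod p) * (y.1 : ZMod p)⁻¹ := ZMod.val_injective p h
    rw [← div_eq_mul_inv, ← div_eq_mul_inv, div_eq_div_iff (hpz x hx') (hpz y hy')] at h1
    apply hE
    unfold ED
    apply Dvd.dvd.mul_left
    have h2 : (p : ℤ) ∣ (x.2 : ℤ) * y.1 - y.2 * x.1 := by
      rw [← ZMod.intCast_zmod_eq_zero_iff_dvd]
      push_cast
      linear_combination -h1
    have h3 : p ∣ disc x y := by
      unfold disc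
      rw [← Int.natCast_dvd]
      exact h2
    exact h3.trans (dvd_prod_of_mem (fun z : (ℕ × ℕ) × (ℕ × ℕ) => disc z.1 z.2)
      (mem_filter.2 ⟨mem_product.2 ⟨hx', hy'⟩, hxy⟩ : (x, y) ∈ _))
  rw [← card_image_of_injOn hinj]
  unfold nuB
  apply card_le_card
  intro s hs
  obtain ⟨x, hx, rfl⟩ := mem_image.1 hs
  rw [mem_filter, mem_range]
  refine ⟨ZMod.val_lt _, ?_⟩
  show QP H p _
  rw [QP_iff]
  refine ⟨x, hx, ?_⟩
  rw [ZMod.natCast_val, ZMod.cast_id', id, mul_assoc, inv_mul_cancel₀ (hpz x hx)]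
  ring

/-- the product of the densities -/
theorem prodP_bd (H : Finset (ℕ × ℕ)) (h1 : ∀ x ∈ H, 1 ≤ x.1) (h2 : ∀ x ∈ H, ∀ y ∈ H, x ≠ y → disc x y ≠ 0) (y : ℕ) :
    ∏ p ∈ pz y, (1 - (nuB (QP H) p : ℝ) / p) ≤ Vz y ^ H.card * ((ED H : ℝ) / (ED H).totient) ^ H.card := by
  have hE := ED_ne H h1 h2
  have h3 : ∀ p ∈ pz y, 1 - (nuB (QP H) p : ℝ) / p ≤ (1 - 1 / (p : ℝ)) ^ H.card *
      (if p ∣ ED H then ((1 - 1 / (p : ℝ))⁻¹) ^ H.card else 1) := by
    intro p hp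
    have hpp := (mem_pz.1 hp).2
    have hp2 : (2 : ℝ) ≤ p := by exact_mod_cast hpp.two_le
    have hp0 : (0 : ℝ) < p := by linarith
    have h2 : 1 / (p : ℝ) ≤ 1 / 2 := one_div_le_one_div_of_le (by norm_num) hp2
    have h3 : 0 < 1 / (p : ℝ) := by positivity
    have h5 : (1 - 1 / (p : ℝ)) ≠ 0 := by linarith
    have hν : 0 ≤ (nuB (QP H) p : ℝ) / p := by positivity
    split_ifs with h
    · rw [← mul_pow, mul_inv_cancel₀ h5, one_pow]
      linarith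
    · rw [mul_one]
      have h6 : (H.card : ℝ) / p ≤ (nuB (QP H) p : ℝ) / p :=
        div_le_div_of_nonneg_right (by exact_mod_cast nuP_full H p hpp h) hp0.le
      have h4 := one_add_mul_le_pow (show (-2 : ℝ) ≤ -(1 / (p : ℝ)) by linarith) H.card
      have h5 : 1 + (H.card : ℝ) * -(1 / (p : ℝ)) = 1 - (H.card : ℝ) / p := by ring
      rw [h5] at h4
      rw [← sub_eq_add_neg] at h4
      linarith
  have h0 : ∀ p ∈ pz y, 0 ≤ 1 - (nuB (QP H) p : ℝ) / p := by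
    intro p hp
    have hp0 : (0 : ℝ) < p := by exact_mod_cast (mem_pz.1 hp).2.pos
    have h2 : (nuB (QP H) p : ℝ) / p ≤ 1 := by
      rw [div_le_one hp0]
      exact_mod_cast nuB_le _ p
    linarith
  have hpos : 0 ≤ ∏ p ∈ (pz y).filter (fun p => p ∣ ED H), (1 - 1 / (p : ℝ))⁻¹ := by
    apply prod_nonneg
    intro p hp
    exact (lt_of_lt_of_le one_pos (inv_ge_one (mem_pz.1 (mem_filter.1 hp).1).2)).le
  have hV0 : 0 ≤ Vz y := by
    unfold Vz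
    apply prod_nonneg
    intro p hp
    have hp2 : (2 : ℝ) ≤ p := by exact_mod_cast (mem_pz.1 hp).2.two_le
    have h2 : 1 / (p : ℝ) ≤ 1 / 2 := one_div_le_one_div_of_le (by norm_num) hp2
    linarith
  refine (prod_le_prod h0 h3).trans ?_
  rw [prod_mul_distrib, prod_pow, ← prod_filter, prod_pow]
  have e : ∏ p ∈ pz y, (1 - 1 / (p : ℝ)) = Vz y := rfl
  rw [e]
  apply mul_le_mul_of_nonneg_left _ (pow_nonneg hV0 _)
  exact pow_le_pow_left₀ hpos (prod_sub_le y _ hE) _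

theorem pairs_bd (r : ℕ) (hr : 1 ≤ r) : ∃ C : ℝ, 0 < C ∧ ∃ Y₀ : ℕ, ∀ Y : ℕ, Y₀ ≤ Y →
    ∀ H : Finset (ℕ × ℕ), H.card = r → (∀ x ∈ H, 1 ≤ x.1 ∧ x.1 ≤ Y ∧ x.2 ≤ Y ∧ x.2.Coprime x.1) →
    (∀ x ∈ H, ∀ y ∈ H, x ≠ y → disc x y ≠ 0) →
    (((Icc 1 Y).filter (fun s => ∀ x ∈ H, (x.2 + s * x.1).Prime)).card : ℝ) ≤
      C * Real.log (Real.log Y) ^ r / Real.log Y ^ r * Y := by
  obtain ⟨K, x0, hK, hF⟩ := sys_fund r hr 1 one_pos
  obtain ⟨c₁, c₂, hc₁, hc₁₂, hcz⟩ := Pool.Agent.H318R2.Cr.cz_bounds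
  obtain ⟨C₃, hC₃, hrat⟩ := ratio_log
  have hc₂ : 0 < c₂ := lt_of_lt_of_le hc₁ hc₁₂
  obtain ⟨Y₀, hY₀⟩ := eventually_atTop.1 ((growth r ((x0 + 2) ^ (K + 1) + 3)).and (growth (2 * r) 0))
  refine ⟨2 * (2 * (K + 1) * c₂) ^ r * (2 * C₃) ^ r + 1, by positivity, Y₀, fun Y hY H hHr hHY hdisc => ?_⟩
  obtain ⟨⟨g1, g2, g3, -, g5⟩, -, -, -, g4, -⟩ := hY₀ Y hY
  push_cast at g4
  obtain ⟨y, hy1, hy2, hy3, hy4⟩ := exists_root_nat (K + 1) x0 Y (by omega) (by omega)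
  have hY3 : 3 ≤ Y := by omega
  have hYr : (3 : ℝ) ≤ Y := by exact_mod_cast hY3
  have hy2r : (2 : ℝ) ≤ y := by exact_mod_cast hy2
  have hyK : y ^ K ≤ Y := (Nat.pow_le_pow_right (by omega) (by omega)).trans hy3
  have hyY : y * y ≤ Y := by
    refine le_trans ?_ hy3
    rw [← sq]
    exact Nat.pow_le_pow_right (by omega) (by omega)
  have h1 := hF Y y hy1 hyK (QP H) (by
    have := perP H (fun x hx => (hHY x hx).2.2.2)
    rwa [hHr] at this) Y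
  set L := Real.log (Y : ℝ) with hL
  set G := Real.log L with hG
  have hL0 : 0 < L := by linarith
  have hG0 : 0 < G := by linarith
  have hY0 : (0 : ℝ) < Y := by linarith
  have hly : 0 < Real.log (y : ℝ) := Real.log_pos (by linarith)
  have hV0 : 0 ≤ Vz y := by
    rw [Vz_eq]
    exact (Pool.Agent.H318R2.Cr.V_pos y).le
  -- the product of the densities
  have hV : Vz y ≤ 2 * (K + 1) * c₂ / L := by
    have h2 := (hcz y hy2).2
    rw [← Vz_eq] at h2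
    rw [le_div_iff₀ hL0]
    push_cast at hy4
    calc Vz y * L ≤ Vz y * (2 * (K + 1) * Real.log y) := mul_le_mul_of_nonneg_left hy4 hV0
      _ = 2 * (K + 1) * (Vz y * Real.log y) := by ring
      _ ≤ 2 * (K + 1) * c₂ := mul_le_mul_of_nonneg_left h2 (by positivity)
  -- the singular factor
  have hEne := ED_ne H (fun x hx => (hHY x hx).1) hdisc
  have hD : (ED H : ℝ) / (ED H).totient ≤ 2 * C₃ * G := by
    have h6 : Real.log (ED H : ℝ) ≤ L ^ 2 := by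
      have h7 : ((ED H : ℕ) : ℝ) ≤ (Y : ℝ) ^ (3 * r ^ 2) := by
        have := ED_le H Y (by omega) (fun x hx => ⟨(hHY x hx).2.1, (hHY x hx).2.2.1⟩)
        rw [hHr] at this
        exact_mod_cast this
      have h8 : (0 : ℝ) < (ED H : ℝ) := by
        have := Nat.pos_of_ne_zero hEne
        exact_mod_cast this
      have h9 := Real.log_le_log h8 h7
      rw [Real.log_pow] at h9
      push_cast at h9
      have h10 : 0 ≤ (r : ℝ) ^ 2 * L := by positivity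
      have h11 : (2 * (r : ℝ)) ^ 2 * L = 4 * (r ^ 2 * L) := by ring
      have h12 : 3 * (r : ℝ) ^ 2 * Real.log Y = 3 * (r ^ 2 * L) := by ring
      rw [h11] at g4
      rw [h12] at h9
      linarith
    have h7 := hrat (ED H) (L ^ 2) hEne (by nlinarith) h6
    rw [Real.log_pow] at h7
    refine h7.trans (le_of_eq ?_)
    push_cast
    ring
  have hprod : ∏ p ∈ pz y, (1 - (nuB (QP H) p : ℝ) / p) ≤
      (2 * (K + 1) * c₂ / L) ^ r * (2 * C₃ * G) ^ r := by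
    refine (prodP_bd H (fun x hx => (hHY x hx).1) hdisc y).trans ?_
    rw [hHr]
    apply mul_le_mul
    · exact pow_le_pow_left₀ hV0 hV r
    · exact pow_le_pow_left₀ (by positivity) hD _
    · positivity
    · positivity
  -- the count
  have hcount : ((Icc 1 Y).filter (fun s => ∀ x ∈ H, (x.2 + s * x.1).Prime)).card ≤
      ((Icc 1 Y).filter (fun s : ℕ => ∀ p ∈ pz y, ¬ QP H p s)).card + y := by
    have h2 : (Icc 1 Y).filter (fun s => ∀ x ∈ H, (x.2 + s * x.1).Prime) ⊆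
        (Icc 1 Y).filter (fun s : ℕ => ∀ p ∈ pz y, ¬ QP H p s) ∪ Icc 1 y := by
      intro a ha
      obtain ⟨h3, h4⟩ := mem_filter.1 ha
      have h3' := mem_Icc.1 h3
      by_cases h5 : a ≤ y
      · exact mem_union_right _ (mem_Icc.2 ⟨h3'.1, h5⟩)
      · apply mem_union_left
        refine mem_filter.2 ⟨h3, ?_⟩
        rintro p hp ⟨x, hx, hpd⟩
        have h6 := mem_pz.1 hp
        have h7 := (Nat.prime_dvd_prime_iff_eq h6.2 (h4 x hx)).1 hpd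
        have h8 : a ≤ a * x.1 := Nat.le_mul_of_pos_right a (by have := (hHY x hx).1; omega)
        omega
    refine (card_le_card h2).trans ((card_union_le _ _).trans ?_)
    rw [Nat.card_Icc, Nat.add_sub_cancel]
  have hcr : (((Icc 1 Y).filter (fun s => ∀ x ∈ H, (x.2 + s * x.1).Prime)).card : ℝ) ≤
      (((Icc 1 Y).filter (fun s : ℕ => ∀ p ∈ pz y, ¬ QP H p s)).card : ℝ) + y := by exact_mod_cast hcount
  have h2 : (((Icc 1 Y).filter (fun s : ℕ => ∀ p ∈ pz y, ¬ QP H p s)).card : ℝ) ≤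
      2 * (Y * ∏ p ∈ pz y, (1 - (nuB (QP H) p : ℝ) / p)) + √(Y : ℝ) := by
    have h3 := (abs_le.1 h1).2
    have h5 : (((Icc 1 Y).filter (fun n : ℕ => ∀ p ∈ pz y, ¬ QP H p n)).card : ℝ) =
          ((@Finset.filter _ (fun n : ℕ => ∀ p ∈ pz y, ¬ QP H p n) (fun _ => Classical.propDecidable _) (Icc 1 Y)).card : ℝ) :=
        congrArg Nat.cast (card_filter_inst _ _ _ _)
    linarith
  have h3 : (y : ℝ) ≤ √(Y : ℝ) := by
    apply Real.le_sqrt_of_sq_le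
    rw [sq]
    exact_mod_cast hyY
  have h4 : (1 : ℝ) ≤ G ^ r := one_le_pow₀ g2
  have h5 : (Y : ℝ) / L ^ r ≤ 1 * G ^ r / L ^ r * Y := by
    rw [one_mul, div_mul_eq_mul_div]
    apply div_le_div_of_nonneg_right _ (by positivity)
    nlinarith
  calc (((Icc 1 Y).filter (fun s => ∀ x ∈ H, (x.2 + s * x.1).Prime)).card : ℝ)
      ≤ 2 * (Y * ((2 * (K + 1) * c₂ / L) ^ r * (2 * C₃ * G) ^ r)) + 2 * √(Y : ℝ) := by
        have := mul_le_mul_of_nonneg_left hprod hY0.le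
        linarith
    _ ≤ 2 * (Y * ((2 * (K + 1) * c₂ / L) ^ r * (2 * C₃ * G) ^ r)) + 1 * G ^ r / L ^ r * Y := by linarith
    _ = (2 * (2 * (K + 1) * c₂) ^ r * (2 * C₃) ^ r + 1) * G ^ r / L ^ r * Y := by
        rw [div_pow, mul_pow (2 * C₃) G r]
        ring

end Pool.Agent.Q145.UM
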