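import Pool.Agent.Q145.UM.PairSieve
import Pool.Agent.Q145.UM.Deg
import Pool.Agent.Q145.RA.MultLaw

set_option autoImplicit false
set_option maxHeartbeats 4000000

/-! # The set of all reduced classes to the moduli in `(D/2, D]` -/

namespace Pool.Agent.Q145.UM

open Finset Filter
open Pool.Agent.H442R2.KF (piN)
open Pool.Agent.Q145.RA (cnt pnt mexp growthM Reg card_filter_inst totient_le_one)

open scoped Classical

/-- the reduced classes to the moduli in `(D/2, D]` outside `B` -/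
noncomputable def PP (D : ℕ) (B : Finset ℕ) : Finset (ℕ × ℕ) :=
  (Icc 1 D ×ˢ Icc 1 D).filter (fun x => D < 2 * x.1 ∧ x.1 ∉ B ∧ x.2 ≤ x.1 ∧ x.2.Coprime x.1)

/-- the classes to the prime moduli -/
noncomputable def QQ (D : ℕ) (B : Finset ℕ) : Finset (ℕ × ℕ) := (PP D B).filter (fun x => x.1.Prime)

/-- the relation -/
def RR (x : ℕ × ℕ) (s : ℕ) : Prop := (x.2 + s * x.1).Prime

theorem mem_PP (D : ℕ) (B : Finset ℕ) (x : ℕ × ℕ) : x ∈ PP D B ↔ (1 ≤ x.1 ∧ x.1 ≤ D) ∧ D < 2 * x.1 ∧ x.1 ∉ B ∧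
    1 ≤ x.2 ∧ x.2 ≤ x.1 ∧ x.2.Coprime x.1 := by
  unfold PP
  rw [mem_filter, mem_product, mem_Icc, mem_Icc]
  constructor
  · rintro ⟨⟨h1, h2⟩, h3, h4, h5, h6⟩
    exact ⟨h1, h3, h4, h2.1, h5, h6⟩
  · rintro ⟨h1, h3, h4, h2, h5, h6⟩
    exact ⟨⟨h1, h2, h5.trans h1.2⟩, h3, h4, h5, h6⟩

theorem card_PP (D : ℕ) (B : Finset ℕ) : (PP D B).card ≤ D ^ 2 := by
  unfold PP
  refine (card_filter_le _ _).trans ?_
  rw [card_product, Nat.card_Icc, Nat.add_sub_cancel, sq]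

theorem disc_ne (x y : ℕ × ℕ) (hx : 1 ≤ x.1) (_hy : 1 ≤ y.1) (hx2 : x.2.Coprime x.1) (hy2 : y.2.Coprime y.1)
    (h : x ≠ y) : disc x y ≠ 0 := by
  intro h1
  unfold disc at h1
  rw [Int.natAbs_eq_zero, sub_eq_zero] at h1
  have h2 : x.2 * y.1 = y.2 * x.1 := by exact_mod_cast h1
  have h3 : x.1 ∣ y.1 := by
    have : x.1 ∣ x.2 * y.1 := by
      rw [h2]
      exact Dvd.intro_left _ rfl
    exact (Nat.Coprime.dvd_mul_left (Nat.coprime_comm.1 hx2)).1 this
  have h4 : y.1 ∣ x.1 := by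
    have : y.1 ∣ y.2 * x.1 := by
      rw [← h2]
      exact Dvd.intro_left _ rfl
    exact (Nat.Coprime.dvd_mul_left (Nat.coprime_comm.1 hy2)).1 this
  have h5 : x.1 = y.1 := Nat.dvd_antisymm h3 h4
  have h6 : x.2 = y.2 := by
    rw [← h5] at h2
    exact Nat.eq_of_mul_eq_mul_right (by omega) h2
  exact h (Prod.ext h5 h6)

/-- the primes in `(D/2, D]` -/
theorem primes_half : ∃ D₀ : ℕ, ∀ D : ℕ, D₀ ≤ D →
    1 / 4 * (D / Real.log D) ≤ (((Icc 1 D).filter (fun p => p.Prime ∧ D < 2 * p)).card : ℝ) := by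
  obtain ⟨y₀, h⟩ := pnt (1 / 8) (by norm_num)
  have hl : Tendsto (fun Y : ℕ => Real.log Y) atTop atTop :=
    Real.tendsto_log_atTop.comp tendsto_natCast_atTop_atTop
  obtain ⟨D₁, h1⟩ := eventually_atTop.1 (hl.eventually_ge_atTop 20)
  refine ⟨max (2 * y₀ + 2) (max D₁ 8), fun D hD => ?_⟩
  have hD1 : 2 * y₀ + 2 ≤ D := (le_max_left _ _).trans hD
  have hD2 := h1 D (((le_max_left _ _).trans (le_max_right _ _)).trans hD)
  have hD8 : 8 ≤ D := ((le_max_right _ _).trans (le_max_right _ _)).trans hD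
  have e1 := (h D (by omega)).1
  have e2 := (h (D / 2) (by omega)).2
  have hcard : piN D ≤ ((Icc 1 D).filter (fun p => p.Prime ∧ D < 2 * p)).card + piN (D / 2) := by
    unfold piN
    have : (Icc 1 D).filter (fun p : ℕ => p.Prime) ⊆
        (Icc 1 D).filter (fun p => p.Prime ∧ D < 2 * p) ∪ (Icc 1 (D / 2)).filter (fun p : ℕ => p.Prime) := by
      intro p hp
      obtain ⟨h3, h4⟩ := mem_filter.1 hp
      have h5 := mem_Icc.1 h3
      rw [mem_union, mem_filter, mem_filter, mem_Icc, mem_Icc]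
      by_cases h6 : D < 2 * p
      · exact Or.inl ⟨h5, h4, h6⟩
      · exact Or.inr ⟨⟨h5.1, by omega⟩, h4⟩
    refine (card_le_card this).trans (card_union_le _ _)
  have hcr : (piN D : ℝ) ≤ (((Icc 1 D).filter (fun p => p.Prime ∧ D < 2 * p)).card : ℝ) + piN (D / 2) := by
    exact_mod_cast hcard
  have hDr : (8 : ℝ) ≤ D := by exact_mod_cast hD8
  set z : ℝ := ((D / 2 : ℕ) : ℝ) with hz
  have hz1 : z ≤ D / 2 := by
    rw [hz]
    exact Nat.cast_div_le
  have hz2 : (D : ℝ) / 4 ≤ z := by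
    have h3 : D ≤ 4 * (D / 2) := by omega
    have h4 : (D : ℝ) ≤ 4 * z := by
      rw [hz]
      exact_mod_cast h3
    linarith
  have hz0 : 0 < z := by linarith
  set L := Real.log (D : ℝ) with hL
  have hlz : 9 / 10 * L ≤ Real.log z := by
    have h3 : Real.log ((D : ℝ) / 4) ≤ Real.log z := Real.log_le_log (by linarith) hz2
    rw [Real.log_div (by linarith) (by norm_num)] at h3
    have h4 : Real.log 4 ≤ 2 := by
      have : Real.log 4 = 2 * Real.log 2 := by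
        rw [show (4 : ℝ) = 2 ^ 2 by norm_num, Real.log_pow]
        norm_num
      have := Real.log_two_lt_d9
      linarith
    linarith
  have hL0 : 0 < L := by linarith
  have h3 : z / Real.log z ≤ 5 / 9 * (D / L) := by
    rw [div_le_iff₀ (by linarith)]
    calc z ≤ D / 2 := hz1
      _ = 5 / 9 * (D / L) * (9 / 10 * L) := by
        field_simp
        ring
      _ ≤ 5 / 9 * (D / L) * Real.log z := mul_le_mul_of_nonneg_left hlz (by positivity)
  have h4 : 0 < (D : ℝ) / L := by positivity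
  nlinarith

/-- the number of the classes -/
theorem card_QQ : ∃ D₀ : ℕ, ∀ D : ℕ, D₀ ≤ D → ∀ B : Finset ℕ, (B.card : ℝ) ≤ 1 / 8 * (D / Real.log D) →
    (D : ℝ) ^ 2 / (64 * Real.log D) ≤ (QQ D B).card := by
  obtain ⟨D₀, h⟩ := primes_half
  refine ⟨max D₀ 16, fun D hD B hB => ?_⟩
  have h1 := h D ((le_max_left _ _).trans hD)
  have hD16 : 16 ≤ D := (le_max_right _ _).trans hD
  have hDr : (16 : ℝ) ≤ D := by exact_mod_cast hD16
  have hL0 : 0 < Real.log (D : ℝ) := Real.log_pos (by linarith)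
  set P := ((Icc 1 D).filter (fun p => p.Prime ∧ D < 2 * p)) \ B with hP
  have h2 : (((Icc 1 D).filter (fun p => p.Prime ∧ D < 2 * p)).card : ℝ) ≤ (P.card : ℝ) + B.card := by
    have h3 : ((Icc 1 D).filter (fun p => p.Prime ∧ D < 2 * p)).card ≤ P.card + B.card := by
      have h4 : (Icc 1 D).filter (fun p => p.Prime ∧ D < 2 * p) ⊆ P ∪ B := by
        intro p hp
        rw [mem_union, hP, Finset.mem_sdiff]
        tauto
      exact (card_le_card h4).trans (card_union_le _ _)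
    exact_mod_cast h3
  have h3 : P.card * (D / 4) ≤ (QQ D B).card := by
    have h4 : P ×ˢ Icc 1 (D / 4) ⊆ QQ D B := by
      intro x hx
      obtain ⟨h5, h6⟩ := mem_product.1 hx
      rw [hP, Finset.mem_sdiff, mem_filter, mem_Icc] at h5
      obtain ⟨⟨h7, h8, h9⟩, h10⟩ := h5
      have h11 := mem_Icc.1 h6
      unfold QQ
      rw [mem_filter, mem_PP]
      refine ⟨⟨h7, h9, h10, h11.1, by omega, ?_⟩, h8⟩
      rw [Nat.coprime_comm, Nat.Prime.coprime_iff_not_dvd h8]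
      intro h12
      have := Nat.le_of_dvd (by omega) h12
      omega
    have h5 := card_le_card h4
    rwa [card_product, Nat.card_Icc, Nat.add_sub_cancel] at h5
  have h4 : (P.card : ℝ) * ((D / 4 : ℕ) : ℝ) ≤ (QQ D B).card := by exact_mod_cast h3
  have h5 : (D : ℝ) / 8 ≤ ((D / 4 : ℕ) : ℝ) := by
    have h6 : D ≤ 8 * (D / 4) := by omega
    have h7 : (D : ℝ) ≤ 8 * ((D / 4 : ℕ) : ℝ) := by exact_mod_cast h6
    linarith
  have h6 : 1 / 8 * ((D : ℝ) / Real.log D) ≤ P.card := by linarith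
  refine le_trans (le_of_eq ?_) ((mul_le_mul h6 h5 (by positivity) (Nat.cast_nonneg _)).trans h4)
  field_simp
  ring

/-- the density -/
noncomputable def del (D Y : ℕ) : ℝ := 1 / Real.log (D * Y : ℝ)

theorem mexp_ge (D Y d : ℕ) (hd : 1 ≤ d) (hdD : d ≤ D) (hY : 2 ≤ Y) : del D Y * Y ≤ mexp d Y := by
  unfold del mexp
  have hdr : (1 : ℝ) ≤ d := by exact_mod_cast hd
  have hdD' : (d : ℝ) ≤ D := by exact_mod_cast hdD
  have hYr : (2 : ℝ) ≤ Y := by exact_mod_cast hY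
  have hφ0 : (0 : ℝ) < d.totient := by exact_mod_cast Nat.totient_pos.2 (by omega)
  have hφd : (d.totient : ℝ) ≤ d := by exact_mod_cast Nat.totient_le d
  have h1 : 0 < Real.log (d * Y : ℝ) := Real.log_pos (by nlinarith)
  have h2 : Real.log (d * Y : ℝ) ≤ Real.log (D * Y : ℝ) := Real.log_le_log (by nlinarith) (by nlinarith)
  have h3 : 0 < Real.log (D * Y : ℝ) := by linarith
  rw [div_mul_eq_mul_div, one_mul, div_le_div_iff₀ h3 (by positivity)]
  calc (Y : ℝ) * (d.totient * Real.log (d * Y : ℝ)) ≤ Y * (d * Real.log (D * Y : ℝ)) := by gcongr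
    _ = _ := by ring

/-- **Regularity.** -/
theorem reg_pairs (η : ℝ) (hη : 0 < η) (hη1 : η ≤ 1) : ∃ D₀ : ℕ, ∀ D Y : ℕ, D₀ ≤ D → D ≤ Y → ∀ B : Finset ℕ,
    3 ≤ (QQ D B).card →
    (∀ d ∈ Icc 1 D, D < 2 * d → d ∉ B → ∀ a : ℕ, 1 ≤ a → a ≤ d → a.Coprime d →
      (1 - η / 4) * mexp d Y ≤ cnt d Y a ∧ (cnt d Y a : ℝ) ≤ (1 + η / 4) * mexp d Y) →
    Reg η (del D Y) (Icc 1 Y) (QQ D B) RR := by
  obtain ⟨C₂, hC₂, Y₂, h2⟩ := pairs_bd 2 (by norm_num)
  obtain ⟨C₃, hC₃, Y₃, h3⟩ := pairs_bd 3 (by norm_num)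
  obtain ⟨Y₄, h4⟩ := eventually_atTop.1 (growthM (2 * C₂ + 4 * C₃) η (by positivity) hη)
  have hl : Tendsto (fun Y : ℕ => Real.log Y) atTop atTop :=
    Real.tendsto_log_atTop.comp tendsto_natCast_atTop_atTop
  have hT : Tendsto (fun Y : ℕ => (Y : ℝ)) atTop atTop := tendsto_natCast_atTop_atTop
  obtain ⟨Y₅, h5⟩ := eventually_atTop.1 ((hl.eventually_ge_atTop (8 / η)).and (hT.eventually_ge_atTop (2 * (1 + 8 / η))))
  refine ⟨max (max Y₂ Y₃) (max (max Y₄ Y₅) 8), fun D Y hD hDY B hcard hdeg => ?_⟩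
  have hD₂ : Y₂ ≤ D := ((le_max_left _ _).trans (le_max_left _ _)).trans hD
  have hD₃ : Y₃ ≤ D := ((le_max_right _ _).trans (le_max_left _ _)).trans hD
  have hD₄ : Y₄ ≤ D := (((le_max_left _ _).trans (le_max_left _ _)).trans (le_max_right _ _)).trans hD
  have hD₅ : Y₅ ≤ D := (((le_max_right _ _).trans (le_max_left _ _)).trans (le_max_right _ _)).trans hD
  have hD8 : 8 ≤ D := ((le_max_right _ _).trans (le_max_right _ _)).trans hD
  obtain ⟨g1, g2, g3⟩ := h4 Y (hD₄.trans hDY)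
  obtain ⟨g4, g5⟩ := h5 D hD₅
  have hDr : (8 : ℝ) ≤ D := by exact_mod_cast hD8
  have hDYr : (D : ℝ) ≤ Y := by exact_mod_cast hDY
  have hY0 : (0 : ℝ) < Y := by linarith
  set L := Real.log (Y : ℝ) with hL
  set G := Real.log L with hG
  have hL0 : 0 < L := by linarith
  have hG0 : 0 < G := by linarith
  have hlD : Real.log (D : ℝ) ≤ L := Real.log_le_log (by linarith) hDYr
  set W : ℝ := Real.log (D * Y : ℝ) with hW
  have hWe : W = Real.log D + L := by
    rw [hW, Real.log_mul (by linarith) (by linarith)]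
  have hWL : W ≤ 2 * L := by linarith
  have hlD0 : 0 < Real.log (D : ℝ) := Real.log_pos (by linarith)
  have hW0 : 0 < W := by linarith
  have hdel : del D Y = 1 / W := rfl
  have hmem : ∀ x ∈ QQ D B, ((1 ≤ x.1 ∧ x.1 ≤ D) ∧ D < 2 * x.1 ∧ x.1 ∉ B ∧ 1 ≤ x.2 ∧ x.2 ≤ x.1 ∧ x.2.Coprime x.1) ∧ x.1.Prime := by
    intro x hx
    obtain ⟨h6, h7⟩ := mem_filter.1 hx
    exact ⟨(mem_PP D B x).1 h6, h7⟩
  have hpair : ∀ H ⊆ QQ D B, (∀ x ∈ H, 1 ≤ x.1 ∧ x.1 ≤ Y ∧ x.2 ≤ Y ∧ x.2.Coprime x.1) ∧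
      (∀ x ∈ H, ∀ y ∈ H, x ≠ y → disc x y ≠ 0) := by
    intro H hH
    constructor
    · intro x hx
      obtain ⟨⟨h6, h7, h8, h9, h10, h11⟩, h12⟩ := hmem x (hH hx)
      exact ⟨h6.1, h6.2.trans hDY, (h10.trans h6.2).trans hDY, h11⟩
    · intro x hx y hy hxy
      obtain ⟨⟨h6, h7, h8, h9, h10, h11⟩, h12⟩ := hmem x (hH hx)
      obtain ⟨⟨k6, k7, k8, k9, k10, k11⟩, k12⟩ := hmem y (hH hy)
      exact disc_ne x y h6.1 k6.1 h11 k11 hxy
  refine ⟨?_, ?_, ?_, ?_⟩
  · intro x hx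
    obtain ⟨⟨h6, h7, h8, h9, h10, h11⟩, h12⟩ := hmem x hx
    have h13 := (hdeg x.1 (mem_Icc.2 h6) h7 h8 x.2 h9 h10 h11).1
    have h14 := mexp_ge D Y x.1 h6.1 h6.2 (by omega)
    rw [Nat.card_Icc, Nat.add_sub_cancel]
    have hd0 : 0 ≤ del D Y * Y := by
      rw [hdel]
      positivity
    calc (1 - η) * del D Y * Y = (1 - η) * (del D Y * Y) := by ring
      _ ≤ (1 - η / 4) * (del D Y * Y) := mul_le_mul_of_nonneg_right (by linarith) hd0
      _ ≤ (1 - η / 4) * mexp x.1 Y := mul_le_mul_of_nonneg_left h14 (by linarith)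
      _ ≤ cnt x.1 Y x.2 := h13
      _ = _ := (congrArg Nat.cast (card_filter_inst _ _ _ _))
  · intro H hH hc
    obtain ⟨x, rfl⟩ := card_eq_one.1 hc
    obtain ⟨⟨h6, h7, h8, h9, h10, h11⟩, h12⟩ := hmem x (hH (mem_singleton_self x))
    have h13 := (hdeg x.1 (mem_Icc.2 h6) h7 h8 x.2 h9 h10 h11).2
    have h14 : ((Icc 1 Y).filter (fun s => ∀ x' ∈ ({x} : Finset (ℕ × ℕ)), RR x' s)).card ≤ cnt x.1 Y x.2 := by
      unfold cnt
      apply card_le_card
      intro a ha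
      obtain ⟨h6, h7⟩ := mem_filter.1 ha
      exact mem_filter.2 ⟨h6, h7 x (mem_singleton_self x)⟩
    rw [Nat.card_Icc, Nat.add_sub_cancel]
    refine (le_of_eq (congrArg Nat.cast (card_filter_inst _ _ _ _))).trans ((Nat.cast_le.2 h14).trans (h13.trans ?_))
    -- the modulus is a prime
    have hd1 : (D : ℝ) < 2 * x.1 := by exact_mod_cast h7
    have hdη : 1 + 8 / η ≤ (x.1 : ℝ) := by linarith
    have h8η : 0 < 8 / η := by positivity
    have htot : ((x.1).totient : ℝ) = x.1 - 1 := by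
      rw [Nat.totient_prime h12]
      push_cast [h6.1]
      ring
    have hd0 : (0 : ℝ) < x.1 - 1 := by linarith
    have hd00 : (0 : ℝ) < x.1 := by linarith
    have hlog : (1 - η / 8) * W ≤ Real.log (x.1 * Y : ℝ) := by
      have e1 : Real.log ((D : ℝ) / 2) ≤ Real.log (x.1 : ℝ) := Real.log_le_log (by linarith) (by linarith)
      rw [Real.log_div (by linarith) (by norm_num)] at e1
      rw [Real.log_mul (by linarith) (by linarith)]
      have e2 := Real.log_two_lt_d9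
      have e3 : 1 ≤ η / 8 * W := by
        rw [div_le_iff₀ hη] at g4
        nlinarith
      nlinarith
    have hW8 : 0 < (1 - η / 8) * W := mul_pos (by linarith) hW0
    unfold mexp
    rw [htot, hdel]
    have e4 : (x.1 : ℝ) ≤ (1 + η / 8) * (x.1 - 1) := by
      have e5 : 8 / η ≤ (x.1 : ℝ) - 1 := by linarith
      rw [div_le_iff₀ hη] at e5
      nlinarith
    have e6 : (x.1 : ℝ) * Y / ((x.1 - 1) * Real.log (x.1 * Y : ℝ)) ≤ (1 + η / 8) / ((1 - η / 8) * W) * Y := by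
      rw [div_mul_eq_mul_div, div_le_div_iff₀ (mul_pos hd0 (lt_of_lt_of_le hW8 hlog)) hW8]
      calc (x.1 : ℝ) * Y * ((1 - η / 8) * W) ≤ ((1 + η / 8) * (x.1 - 1)) * Y * Real.log (x.1 * Y : ℝ) := by
            apply mul_le_mul _ hlog hW8.le (mul_nonneg (mul_nonneg (by positivity) hd0.le) hY0.le)
            exact mul_le_mul_of_nonneg_right e4 hY0.le
        _ = _ := by ring
    calc (1 + η / 4) * ((x.1 : ℝ) * Y / ((x.1 - 1) * Real.log (x.1 * Y : ℝ)))
        ≤ (1 + η / 4) * ((1 + η / 8) / ((1 - η / 8) * W) * Y) := mul_le_mul_of_nonneg_left e6 (by positivity)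
      _ ≤ (1 + η) * (1 / W) * Y := by
          have e7 : (1 + η / 4) * ((1 + η / 8) / ((1 - η / 8) * W)) ≤ (1 + η) * (1 / W) := by
            rw [← mul_div_assoc, mul_one_div, div_le_div_iff₀ hW8 hW0]
            have : (1 + η / 4) * (1 + η / 8) ≤ (1 + η) * (1 - η / 8) := by nlinarith
            calc (1 + η / 4) * (1 + η / 8) * W ≤ (1 + η) * (1 - η / 8) * W := mul_le_mul_of_nonneg_right this hW0.le
              _ = _ := by ring
          calc (1 + η / 4) * ((1 + η / 8) / ((1 - η / 8) * W) * Y) = (1 + η / 4) * ((1 + η / 8) / ((1 - η / 8) * W)) * Y := by ring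
            _ ≤ _ := mul_le_mul_of_nonneg_right e7 hY0.le
  · intro H hH hc
    obtain ⟨p1, p2⟩ := hpair H hH
    have h4 := h2 Y (hD₂.trans hDY) H hc p1 p2
    rw [Nat.card_Icc, Nat.add_sub_cancel, hdel]
    refine (le_of_eq (congrArg Nat.cast (card_filter_inst _ _ _ _))).trans (h4.trans ?_)
    apply mul_le_mul_of_nonneg_right _ hY0.le
    rw [mul_one_div, div_le_div_iff₀ (by positivity) hW0]
    have f1 : G ^ 2 ≤ G ^ 4 := pow_le_pow_right₀ g2 (by norm_num)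
    have f2 : 2 * C₂ * G ^ 2 ≤ η * L := by
      have : 0 ≤ 4 * C₃ * G ^ 4 := by positivity
      nlinarith
    calc C₂ * G ^ 2 * W ≤ C₂ * G ^ 2 * (2 * L) := mul_le_mul_of_nonneg_left hWL (by positivity)
      _ = (2 * C₂ * G ^ 2) * L := by ring
      _ ≤ (η * L) * L := mul_le_mul_of_nonneg_right f2 hL0.le
      _ = η * L ^ 2 := by ring
  · intro H hH hc
    obtain ⟨p1, p2⟩ := hpair H hH
    have h4 := h3 Y (hD₃.trans hDY) H hc p1 p2
    rw [Nat.card_Icc, Nat.add_sub_cancel, hdel]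
    refine (le_of_eq (congrArg Nat.cast (card_filter_inst _ _ _ _))).trans (h4.trans ?_)
    apply mul_le_mul_of_nonneg_right _ hY0.le
    have hc3 : (3 : ℝ) ≤ (QQ D B).card := by exact_mod_cast hcard
    have hlV0 : 0 < Real.log ((QQ D B).card : ℝ) := Real.log_pos (by linarith)
    have hlV : Real.log ((QQ D B).card : ℝ) ≤ 2 * L := by
      have e1 : ((QQ D B).card : ℝ) ≤ (D : ℝ) ^ 2 := by
        have : (QQ D B).card ≤ D ^ 2 := (card_filter_le _ _).trans (card_PP D B)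
        exact_mod_cast this
      have e2 := Real.log_le_log (by linarith) e1
      rw [Real.log_pow] at e2
      push_cast at e2
      linarith
    rw [div_div, mul_one_div, div_le_div_iff₀ (by positivity) (by positivity)]
    have f1 : G ^ 3 ≤ G ^ 4 := pow_le_pow_right₀ g2 (by norm_num)
    have f2 : 4 * C₃ * G ^ 3 ≤ η * L := by
      have : 0 ≤ 2 * C₂ * G ^ 4 := by positivity
      nlinarith
    calc C₃ * G ^ 3 * (W * Real.log ((QQ D B).card : ℝ)) ≤ C₃ * G ^ 3 * (2 * L * (2 * L)) := by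
          apply mul_le_mul_of_nonneg_left _ (by positivity)
          exact mul_le_mul hWL hlV hlV0.le (by positivity)
      _ = (4 * C₃ * G ^ 3) * L ^ 2 := by ring
      _ ≤ (η * L) * L ^ 2 := mul_le_mul_of_nonneg_right f2 (by positivity)
      _ = η * L ^ 3 := by ring

end Pool.Agent.Q145.UM
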